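import Mathlib
import Pool.Agent.Y359.PE.Runs

/-!
# Product sets and primes with spread valuations: the entropy inequality
-/

set_option autoImplicit false

namespace Pool.Agent.R849.SV

open Finset Pool.Agent.Y359.PE
open scoped Classical

/-- the value of a coordinate if it is large at the scale `m` -/
def cut (m p : ℕ) (x : ℤ) : ℤ := if m ≤ p ^ x.natAbs then x else 0

lemma cut_small {m p : ℕ} (hp : 2 ≤ p) (x : ℤ) : x - cut m p x ∈ Icc (-(m : ℤ)) m := by
  unfold cut
  split_ifs with h
  · rw [sub_self, mem_Icc]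
    constructor <;> simp
  · rw [sub_zero, mem_Icc]
    have h1 : x.natAbs < p ^ x.natAbs := Nat.lt_pow_self hp
    have h2 : x.natAbs < m := by omega
    omega

lemma cut_large {m p : ℕ} (hp : m ≤ p) (hp1 : 1 ≤ p) (x : ℤ) : cut m p x = x := by
  unfold cut
  split_ifs with h
  · rfl
  · by_contra hx
    apply h
    have h1 : 1 ≤ x.natAbs := by omega
    calc m ≤ p ^ 1 := by rwa [pow_one]
      _ ≤ p ^ x.natAbs := Nat.pow_le_pow_right hp1 h1

/-- the large coordinates -/
noncomputable def Yv (m : ℕ) (e : ℕ → ℕ) (a : ℤ) (p : ℕ) : ℤ := cut m p (X e a p)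

lemma nz_Yv (m : ℕ) (e : ℕ → ℕ) (A : Finset ℤ) (p : ℕ) :
    nz A (fun a => Yv m e a p) ≤
      (A.filter fun a => m ≤ p ^ ((fa a p : ℤ) - e p).natAbs).card := by
  rw [nz_eq A (fun a => Yv m e a p) (A.filter fun a => Yv m e a p ≠ 0) (fun a => by
    rw [mem_filter])]
  refine card_le_card fun a ha => ?_
  rw [mem_filter] at ha ⊢
  refine ⟨ha.1, ?_⟩
  by_contra h
  exact ha.2 (if_neg h)

/-- the vectors of the valuations at the primes of `P` -/
noncomputable def parts (P : Finset ℕ) (A : Finset ℤ) : Finset (ℕ → ℕ) :=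
  A.image fun a => fun p => if p ∈ P then fa a p else 0

lemma parts_nonempty (P : Finset ℕ) {A : Finset ℤ} (hA : A.Nonempty) : (parts P A).Nonempty :=
  hA.image _

lemma fc_le_core (A : Finset ℤ) (h0 : (0 : ℤ) ∉ A) (P : Finset ℕ) (m : ℕ) (e : ℕ → ℕ) (x : ℤ) :
    fc A (mk (pr A \ P) (Yv m e)) x ≤ 2 * (2 * m + 1) ^ m * (parts P A).card := by
  have h1 : (cl A (mk (pr A \ P) (Yv m e)) x).card ≤
      ((univ : Finset Bool) ×ˢ (Fintype.piFinset fun _ : Fin m => Icc (-(m : ℤ)) m) ×ˢ
        parts P A).card := by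
    refine card_le_card_of_injOn (fun y => (decide (0 < y), (fun j : Fin m =>
      if (j : ℕ) ∈ pr A \ P then X e y j - Yv m e y j else 0),
      fun p => if p ∈ P then fa y p else 0)) ?_ ?_
    · intro y hy
      rw [mem_coe, mem_cl] at hy
      rw [mem_coe, mem_product, mem_product]
      refine ⟨mem_univ _, ?_, mem_image_of_mem _ hy.1⟩
      rw [Fintype.mem_piFinset]
      intro j
      dsimp only
      split_ifs with hj
      · exact cut_small (prime_of_mem_pr (mem_sdiff.1 hj).1).two_le _
      · rw [mem_Icc]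
        constructor <;> simp
    · intro y hy z hz hyz
      rw [mem_coe, mem_cl, mk_eq_iff] at hy hz
      rw [Prod.mk.injEq, Prod.mk.injEq] at hyz
      have hs : (0 < y ↔ 0 < z) := by
        have := hyz.1
        rw [decide_eq_decide] at this
        exact this
      refine eq_of_fa (fun h => h0 (h ▸ hy.1)) (fun h => h0 (h ▸ hz.1)) hs ?_
      intro p
      by_cases hp : p ∈ P
      · have := congrFun hyz.2.2 p
        simpa [hp] using this
      · by_cases hp2 : p ∈ pr A
        · have hp3 : p ∈ pr A \ P := mem_sdiff.2 ⟨hp2, hp⟩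
          have hY : Yv m e y p = Yv m e z p := (hy.2 p hp3).trans (hz.2 p hp3).symm
          have hX : X e y p = X e z p := by
            rcases lt_or_ge p m with hpm | hpm
            · have h2 := congrFun hyz.2.1 ⟨p, hpm⟩
              simp only [hp3, if_true] at h2
              linarith
            · have hp1 : 1 ≤ p := (prime_of_mem_pr hp2).one_le
              unfold Yv at hY
              rwa [cut_large hpm hp1, cut_large hpm hp1] at hY
          unfold X at hX
          omega
        · rw [fa_eq_zero hy.1 hp2, fa_eq_zero hz.1 hp2]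
  refine h1.trans (le_of_eq ?_)
  rw [card_product, card_product, card_univ, Fintype.card_bool, Fintype.card_piFinset, prod_const,
    card_univ, Fintype.card_fin, Int.card_Icc]
  have : ((m : ℤ) + 1 - -(m : ℤ)).toNat = 2 * m + 1 := by omega
  rw [this]
  ring

/-- **The entropy inequality.** -/
theorem core (A : Finset ℤ) (hA : A.Nonempty) (h0 : (0 : ℤ) ∉ A) (P : Finset ℕ)
    (e : ℕ → ℕ) (m k : ℕ) (hk : 1 ≤ k) {L γ : ℝ} (hL : 1 < L) (hl : 5 < Real.log L) (hγ : γ ≤ 1)
    (hLγ : k * (4 + k) / Real.log L ≤ γ)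
    (hT : ∀ p, p.Prime → p ∉ P →
      L * ((A.filter fun a => m ≤ p ^ ((fa a p : ℤ) - e p).natAbs).card : ℝ) ≤ A.card) :
    (1 - γ) * k * (Real.log A.card - Real.log (2 * (2 * m + 1) ^ m * (parts P A).card)) ≤
      Real.log ((pk k A).card * (2 * (k * m) + 1) ^ m) := by
  have hkr : (1 : ℝ) ≤ k := by exact_mod_cast hk
  obtain ⟨p1, p2, p3⟩ := params hL hl (show (0 : ℝ) ≤ k by positivity)
  have hL0 : 0 < L := by linarith
  have hl0 : 0 < Real.log L := by linarith
  set κ := 2 / Real.log (1 / (1 / Real.sqrt L)) + k * (1 / L) / (1 / Real.sqrt L) with hκ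
  have hκk : k * κ ≤ γ := by
    have h1 := mul_le_mul_of_nonneg_left p3 (show (0 : ℝ) ≤ k by positivity)
    rw [← mul_div_assoc] at h1
    exact h1.trans hLγ
  have hκ0 : 0 ≤ κ := by
    have h3 : 0 < Real.log (1 / (1 / Real.sqrt L)) := by
      rw [one_div_one_div, Real.log_sqrt hL0.le]
      linarith
    positivity
  have hκ1 : κ ≤ 1 := by nlinarith
  set T := pr A \ P with hTd
  obtain ⟨β, B, Y, hB, h1, -, h3⟩ := kcopies A hA (Yv m e) (τ := 1 / L) (θ := 1 / Real.sqrt L)
    (by positivity) (by positivity) p2 k hκ1 T (fun p hp => by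
      have h4 := hT p (prime_of_mem_pr (mem_sdiff.1 hp).1) (mem_sdiff.1 hp).2
      have h5 : (nz A (fun a => Yv m e a p) : ℝ) ≤
          ((A.filter fun a => m ≤ p ^ ((fa a p : ℤ) - e p).natAbs).card : ℝ) := by
        exact_mod_cast nz_Yv m e A p
      rw [one_div, ← div_eq_inv_mul, le_div_iff₀ hL0]
      nlinarith) k hk le_rfl
  have e1 : (1 - 2 / Real.log (1 / (1 / Real.sqrt L)) - k * (1 / L) / (1 / Real.sqrt L)) =
      1 - κ := by
    rw [hκ]
    ring
  rw [e1] at h3
  have hbern : 1 - (k : ℝ) * κ ≤ (1 - κ) ^ (k - 1) := by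
    have h1 := one_add_mul_le_pow (show (-2 : ℝ) ≤ -κ by linarith) (k - 1)
    have h2 : ((k - 1 : ℕ) : ℝ) ≤ k := by exact_mod_cast Nat.sub_le _ _
    have h3 : 1 - (k : ℝ) * κ ≤ 1 + ((k - 1 : ℕ) : ℝ) * (-κ) := by nlinarith
    rw [sub_eq_add_neg 1 κ]
    exact h3.trans h1
  have hH0 : 0 ≤ h A (mk T (Yv m e)) := h_nonneg _ _
  have h4 : 1 - γ ≤ (1 - κ) ^ (k - 1) := by linarith
  have h5 : (1 - γ) * k * h A (mk T (Yv m e)) ≤ h B (mk T Y) := by
    refine le_trans ?_ h3
    gcongr
  -- the lower bound for the entropy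
  have hN0 : (0 : ℝ) < A.card := by exact_mod_cast card_pos.2 hA
  have hlow := h_ge_short A A hA (mk T (Yv m e)) (Subset.refl _)
    (F := 2 * (2 * m + 1) ^ m * (parts P A).card) (fun x _ => by
      exact_mod_cast fc_le_core A h0 P m e x)
  rw [div_self hN0.ne', one_mul] at hlow
  -- the upper bound
  choose! f hf1 hf2 using h1
  let G : ℤ × (Fin m → ℤ) → ℕ → ℤ := fun s p =>
    if p ∈ T then ((fa s.1 p : ℤ) - k * e p) - (if h : p < m then s.2 ⟨p, h⟩ else 0) else 0
  have himg : B.image (mk T Y) ⊆ (pk k A ×ˢ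
      (Fintype.piFinset fun _ : Fin m => Icc (-((k * m : ℕ) : ℤ)) (k * m : ℕ))).image G := by
    intro v hv
    obtain ⟨b, hb, rfl⟩ := mem_image.1 hv
    have hne : ∀ i, f b i ≠ 0 := fun i h => h0 (h ▸ hf1 b hb i)
    refine mem_image.2 ⟨(∏ i, f b i, fun j : Fin m =>
      if (j : ℕ) ∈ T then ∑ i, (X e (f b i) j - Yv m e (f b i) j) else 0), ?_, ?_⟩
    · rw [mem_product]
      refine ⟨mem_image_of_mem _ (Fintype.mem_piFinset.2 (hf1 b hb)), ?_⟩
      rw [Fintype.mem_piFinset]
      intro j
      dsimp only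
      split_ifs with hj
      · have hj2 := (prime_of_mem_pr (mem_sdiff.1 hj).1).two_le
        have hb1 : ∀ i, X e (f b i) j - Yv m e (f b i) j ∈ Icc (-(m : ℤ)) m := fun i =>
          cut_small hj2 _
        rw [mem_Icc]
        constructor
        · have := sum_le_sum fun i (_ : i ∈ (univ : Finset (Fin k))) => (mem_Icc.1 (hb1 i)).1
          rw [sum_const, card_univ, Fintype.card_fin, nsmul_eq_mul] at this
          push_cast
          linarith
        · have := sum_le_sum fun i (_ : i ∈ (univ : Finset (Fin k))) => (mem_Icc.1 (hb1 i)).2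
          rw [sum_const, card_univ, Fintype.card_fin, nsmul_eq_mul] at this
          push_cast
          linarith
      · rw [mem_Icc]
        constructor
        · simp
          positivity
        · positivity
    · funext p
      show (if p ∈ T then _ else _) = mk T Y b p
      unfold Pool.Agent.Y359.PE.mk
      by_cases hp : p ∈ T
      · rw [if_pos hp, if_pos hp]
        have hfa : (fa (∏ i, f b i) p : ℤ) - k * e p = ∑ i, X e (f b i) p := by
          rw [fa_prod (f b) hne]
          unfold X
          rw [sum_sub_distrib, sum_const, card_univ, Fintype.card_fin]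
          push_cast
          simp
        have hYb : Y b p = ∑ i, Yv m e (f b i) p := by
          rw [hf2 b hb, Finset.sum_apply]
        dsimp only
        rw [hfa, hYb]
        by_cases hpm : p < m
        · rw [dif_pos hpm]
          simp only [hp, if_true]
          rw [sum_sub_distrib]
          ring
        · rw [dif_neg hpm, sub_zero]
          have hp1 : 1 ≤ p := (prime_of_mem_pr (mem_sdiff.1 hp).1).one_le
          refine sum_congr rfl fun i _ => ?_
          unfold Yv
          rw [cut_large (not_lt.1 hpm) hp1]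
      · rw [if_neg hp, if_neg hp]
  have hcard : (B.image (mk T Y)).card ≤ (pk k A).card * (2 * (k * m) + 1) ^ m := by
    refine (card_le_card himg).trans (card_image_le.trans (le_of_eq ?_))
    rw [card_product, Fintype.card_piFinset, prod_const, card_univ, Fintype.card_fin,
      Int.card_Icc]
    have : (((k * m : ℕ) : ℤ) + 1 - -((k * m : ℕ) : ℤ)).toNat = 2 * (k * m) + 1 := by omega
    rw [this]
  have hpos : (0 : ℝ) < (B.image (mk T Y)).card := by
    exact_mod_cast card_pos.2 (hB.image _)
  have h6 : Real.log ((B.image (mk T Y)).card : ℝ) ≤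
      Real.log ((pk k A).card * (2 * (k * m) + 1) ^ m) :=
    Real.log_le_log hpos (by exact_mod_cast hcard)
  refine le_trans ?_ (h5.trans ((h_le_log hB _).trans h6))
  have h7 : 0 ≤ (1 - γ) * k := mul_nonneg (by linarith) (by linarith)
  exact mul_le_mul_of_nonneg_left hlow h7

end Pool.Agent.R849.SV
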