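import Mathlib
import Pool.Agent.Y359.PE.Runs

/-!
# Values of primitive polynomials divisible by a large number, in a short interval
-/

set_option autoImplicit false

namespace Pool.Agent.R849.SV

open Finset Polynomial

/-- the weight of a point of a finite set of integers in Lagrange's formula -/
def wt (S : Finset ℤ) (x : ℤ) : ℤ := ∏ y ∈ S.erase x, (x - y)

lemma wt_ne_zero (S : Finset ℤ) (x : ℤ) : wt S x ≠ 0 := by
  unfold wt
  rw [prod_ne_zero_iff]
  intro y hy h
  exact (ne_of_mem_erase hy) (by linarith)

/-- Lagrange's formula without denominators -/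
lemma lagrange (g : ℤ[X]) (S : Finset ℤ) (hd : g.natDegree < S.card) :
    C (∏ x ∈ S, wt S x) * g =
      ∑ x ∈ S, C (g.eval x * ∏ z ∈ S.erase x, wt S z) * ∏ y ∈ S.erase x, (X - C y) := by
  refine Polynomial.eq_of_degree_sub_lt_of_eval_finset_eq S ?_ ?_
  · refine lt_of_le_of_lt (degree_sub_le _ _) ?_
    rw [max_lt_iff]
    have hS : 0 < S.card := lt_of_le_of_lt (Nat.zero_le _) hd
    constructor
    · rw [degree_C_mul (prod_ne_zero_iff.2 fun x _ => wt_ne_zero S x)]
      refine lt_of_le_of_lt degree_le_natDegree ?_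
      exact_mod_cast hd
    · refine lt_of_le_of_lt (degree_sum_le _ _) ?_
      rw [Finset.sup_lt_iff (by exact_mod_cast WithBot.bot_lt_coe S.card)]
      intro x hx
      rw [C_mul']
      refine lt_of_le_of_lt (degree_smul_le _ _) ?_
      rw [degree_prod]
      simp only [degree_X_sub_C, sum_const, card_erase_of_mem hx]
      rw [nsmul_one]
      exact_mod_cast Nat.sub_lt hS one_pos
  · intro x hx
    rw [eval_mul, eval_C, eval_finsetSum, Finset.sum_eq_single x]
    · rw [eval_mul, eval_C, eval_prod]
      have h1 : ∏ j ∈ S.erase x, eval x (X - C j) = wt S x := by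
        unfold wt
        refine prod_congr rfl fun y _ => ?_
        simp
      rw [h1, ← mul_prod_erase S (wt S) hx]
      ring
    · intro z hz hzx
      rw [eval_mul, eval_prod]
      have : ∏ j ∈ S.erase z, eval x (X - C j) = 0 := by
        refine prod_eq_zero (mem_erase.2 ⟨hzx.symm, hx⟩) ?_
        simp
      rw [this, mul_zero]
    · intro h
      exact absurd hx h

/-- a primitive polynomial of degree less than the number of the points -/
lemma dvd_wt (g : ℤ[X]) (hg : g.IsPrimitive) (S : Finset ℤ) (hd : g.natDegree < S.card) (q : ℤ)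
    (hq : ∀ x ∈ S, q ∣ g.eval x) : q ∣ ∏ x ∈ S, wt S x := by
  have h1 : C q ∣ C (∏ x ∈ S, wt S x) * g := by
    rw [lagrange g S hd]
    refine Finset.dvd_sum fun x hx => ?_
    refine Dvd.dvd.mul_right ?_ _
    exact (C_dvd_iff_dvd_coeff _ _).2 fun i => by
      rw [coeff_C]
      split_ifs
      · exact (hq x hx).mul_right _
      · exact dvd_zero _
  rw [← dvd_content_iff_C_dvd, content_C_mul, hg.content_eq_one, mul_one] at h1
  exact (dvd_normalize_iff).1 h1

/-- the number of the values in a short interval divisible by a large number is at most the degree -/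
lemma card_le_degree (g : ℤ[X]) (hg : g.IsPrimitive) (S : Finset ℤ) (l : ℕ) (q : ℕ)
    (hl : ∀ x ∈ S, ∀ y ∈ S, |x - y| ≤ l)
    (hq : ∀ x ∈ S, (q : ℤ) ∣ g.eval x) (hql : l ^ (g.natDegree * (g.natDegree + 1)) < q) :
    S.card ≤ g.natDegree := by
  by_contra hcon
  push Not at hcon
  obtain ⟨T, hTS, hT⟩ := exists_subset_card_eq hcon
  have h1 := dvd_wt g hg T (by omega) q fun x hx => hq x (hTS hx)
  have h2 : (∏ x ∈ T, wt T x) ≠ 0 := prod_ne_zero_iff.2 fun x _ => wt_ne_zero T x
  have h3 : |∏ x ∈ T, wt T x| ≤ (l : ℤ) ^ (g.natDegree * (g.natDegree + 1)) := by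
    rw [abs_prod]
    have h4 : ∀ x ∈ T, |wt T x| ≤ (l : ℤ) ^ g.natDegree := by
      intro x hx
      unfold wt
      rw [abs_prod]
      have h5 : ∏ y ∈ T.erase x, |x - y| ≤ ∏ _y ∈ T.erase x, (l : ℤ) :=
        prod_le_prod (fun _ _ => abs_nonneg _) fun y hy =>
          hl x (hTS hx) y (hTS (mem_of_mem_erase hy))
      rw [prod_const, card_erase_of_mem hx, hT] at h5
      simpa using h5
    have h6 : ∏ x ∈ T, |wt T x| ≤ ∏ _x ∈ T, (l : ℤ) ^ g.natDegree :=
      prod_le_prod (fun _ _ => abs_nonneg _) h4
    rw [prod_const, hT, ← pow_mul] at h6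
    exact h6
  have h4 := Int.le_of_dvd (abs_pos.2 h2) ((dvd_abs _ _).2 h1)
  have h5 : (q : ℤ) ≤ (l : ℤ) ^ (g.natDegree * (g.natDegree + 1)) := h4.trans h3
  have h6 : q ≤ l ^ (g.natDegree * (g.natDegree + 1)) := by exact_mod_cast h5
  omega

/-- every element of `X` has at least `n` elements of `X` (itself included) at distance at most `w` -/
def Clust (n w : ℕ) (X : Finset ℤ) : Prop :=
  ∀ x ∈ X, n ≤ (X.filter fun y => |y - x| ≤ w).card

/-- counting in clusters -/
lemma count_clust (A : Finset ℤ) (n w : ℕ) (hcl : Clust n w A) (Q : Finset ℤ) (hQA : Q ⊆ A)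
    (d : ℕ) (hd : ∀ y : ℤ, (Q.filter fun x => |y - x| ≤ w).card ≤ d) :
    n * Q.card ≤ d * A.card := by
  have h1 : n * Q.card ≤ ∑ x ∈ Q, (A.filter fun y => |y - x| ≤ w).card := by
    rw [mul_comm, ← smul_eq_mul, ← sum_const]
    exact sum_le_sum fun x hx => hcl x (hQA hx)
  have h2 : ∑ x ∈ Q, (A.filter fun y => |y - x| ≤ w).card =
      ∑ y ∈ A, (Q.filter fun x => |y - x| ≤ w).card := by
    simp only [card_filter]
    exact sum_comm
  rw [h2] at h1
  refine h1.trans ((sum_le_sum fun y _ => hd y).trans ?_)
  rw [sum_const, smul_eq_mul, mul_comm]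

/-- the pairs of close elements -/
def close (w : ℕ) (X : Finset ℤ) : Finset (ℤ × ℤ) :=
  (X ×ˢ X).filter fun s => |s.1 - s.2| ≤ w

lemma card_close (w : ℕ) (X : Finset ℤ) :
    (close w X).card = ∑ x ∈ X, (X.filter fun y => |x - y| ≤ w).card := by
  unfold close
  rw [card_filter, sum_product]
  simp only [card_filter]

lemma card_close_le (w : ℕ) (X : Finset ℤ) : (close w X).card ≤ (2 * w + 1) * X.card := by
  rw [card_close]
  have h1 : ∀ x ∈ X, (X.filter fun y => |x - y| ≤ w).card ≤ 2 * w + 1 := by
    intro x _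
    have : (X.filter fun y => |x - y| ≤ w) ⊆ Icc (x - w) (x + w) := by
      intro y hy
      rw [mem_filter, abs_le] at hy
      rw [mem_Icc]
      constructor <;> linarith [hy.2.1, hy.2.2]
    refine (card_le_card this).trans (le_of_eq ?_)
    rw [Int.card_Icc]
    have : x + (w : ℤ) + 1 - (x - w) = ((2 * w + 1 : ℕ) : ℤ) := by
      push_cast
      ring
    rw [this, Int.toNat_natCast]
  refine (sum_le_sum h1).trans ?_
  rw [sum_const, smul_eq_mul, mul_comm]

/-- the core of the graph of the close pairs -/
lemma core_clust (n w : ℕ) (X : Finset ℤ) : ∃ B ⊆ X, Clust n w B ∧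
    (close w X).card ≤ 2 * n * X.card + (2 * w + 1) * B.card := by
  induction X using Finset.strongInduction with
  | _ X ih =>
    by_cases hX : Clust n w X
    · exact ⟨X, Subset.refl _, hX, by
        have := card_close_le w X
        omega⟩
    · unfold Clust at hX
      push Not at hX
      obtain ⟨x, hx, hxn⟩ := hX
      obtain ⟨B, hB, hBc, hcl⟩ := ih (X.erase x) (erase_ssubset hx)
      refine ⟨B, hB.trans (erase_subset _ _), hBc, ?_⟩
      have h1 : close w X ⊆ close w (X.erase x) ∪
          ((X.filter fun y => |y - x| ≤ w).image fun y => (x, y)) ∪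
          ((X.filter fun y => |y - x| ≤ w).image fun y => (y, x)) := by
        intro s hs
        unfold close at hs
        rw [mem_filter, mem_product] at hs
        rw [mem_union, mem_union]
        by_cases h1 : s.1 = x
        · left; right
          refine mem_image.2 ⟨s.2, mem_filter.2 ⟨hs.1.2, ?_⟩, ?_⟩
          · rw [← h1, abs_sub_comm]
            exact hs.2
          · rw [← h1]
        · by_cases h2 : s.2 = x
          · right
            refine mem_image.2 ⟨s.1, mem_filter.2 ⟨hs.1.1, ?_⟩, ?_⟩
            · rw [← h2]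
              exact hs.2
            · rw [← h2]
          · left; left
            unfold close
            rw [mem_filter, mem_product]
            exact ⟨⟨mem_erase.2 ⟨h1, hs.1.1⟩, mem_erase.2 ⟨h2, hs.1.2⟩⟩, hs.2⟩
      have h2 := (card_le_card h1).trans ((card_union_le _ _).trans
        (Nat.add_le_add_right (card_union_le _ _) _))
      have h3 : ((X.filter fun y => |y - x| ≤ w).image fun y => (x, y)).card ≤ n :=
        card_image_le.trans hxn.le
      have h4 : ((X.filter fun y => |y - x| ≤ w).image fun y => (y, x)).card ≤ n :=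
        card_image_le.trans hxn.le
      have h5 : X.card = (X.erase x).card + 1 := (card_erase_add_one hx).symm
      rw [h5]
      have h6 : 2 * n * ((X.erase x).card + 1) = 2 * n * (X.erase x).card + 2 * n := by ring
      rw [h6]
      omega

/-- a nonconstant polynomial takes a value at most `natDegree` times -/
lemma fibre_le (f : ℤ[X]) (hf : 0 < f.natDegree) (A : Finset ℤ) (v : ℤ) :
    (A.filter fun x => f.eval x = v).card ≤ f.natDegree := by
  have h0 : f - C v ≠ 0 := by
    intro h
    rw [sub_eq_zero] at h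
    rw [h, natDegree_C] at hf
    exact lt_irrefl _ hf
  have h1 : (A.filter fun x => f.eval x = v) ⊆ (f - C v).roots.toFinset := by
    intro x hx
    rw [mem_filter] at hx
    rw [Multiset.mem_toFinset, mem_roots h0, IsRoot, eval_sub, eval_C, hx.2, sub_self]
  refine (card_le_card h1).trans ((Multiset.toFinset_card_le _).trans ((card_roots' _).trans ?_))
  rw [natDegree_sub_C]

end Pool.Agent.R849.SV
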