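import Mathlib
import Pool.Agent.R849.SV.Core
import Pool.Agent.R849.SV.Poly

/-!
# Product sets of sets without primes of spread valuations, and of values of polynomials
-/

set_option autoImplicit false

namespace Pool.Agent.R849.SV

open Finset Pool.Agent.Y359.PE
open scoped Classical

/-- **Spread valuations.** -/
theorem spread (k : ℕ) (hk : 1 ≤ k) (ε : ℝ) (hε : 0 < ε) (hε1 : ε ≤ 1) :
    ∃ δ : ℝ, 0 < δ ∧ ∀ m : ℕ, ∃ c : ℝ, 0 < c ∧ ∀ A : Finset ℤ, A.Nonempty → (0 : ℤ) ∉ A →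
      ∀ (P : Finset ℕ) (e : ℕ → ℕ),
      (∀ p, p.Prime → p ∉ P →
        ((A.filter fun a => m ≤ p ^ ((fa a p : ℤ) - e p).natAbs).card : ℝ) ≤ δ * A.card) →
      c * ((A.card : ℝ) / (parts P A).card) ^ ((k : ℝ) - ε) ≤ (pk k A).card := by
  have hkr : (1 : ℝ) ≤ k := by exact_mod_cast hk
  set γ : ℝ := ε / k with hγ
  have hγ0 : 0 < γ := by positivity
  have hγ1 : γ ≤ 1 := by
    rw [hγ, div_le_one (by linarith)]
    linarith
  set u : ℝ := k * (4 + k) / γ with hu
  have hu0 : 0 ≤ u := by positivity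
  set L : ℝ := Real.exp (6 + u) with hL
  have hlog : Real.log L = 6 + u := by rw [hL, Real.log_exp]
  have hL1 : 1 < L := by
    rw [hL]
    exact Real.one_lt_exp_iff.2 (by linarith)
  have hL0 : 0 < L := by linarith
  refine ⟨1 / L, by positivity, fun m => ?_⟩
  set F0 : ℝ := 2 * (2 * m + 1) ^ m with hF0
  set F1 : ℝ := (2 * (k * m) + 1) ^ m with hF1
  have hF00 : 0 < F0 := by positivity
  have hF10 : 0 < F1 := by positivity
  refine ⟨1 / (F0 ^ ((k : ℝ) - ε) * F1), by positivity, fun A hA h0 P e hT => ?_⟩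
  have hD : (0 : ℝ) < (parts P A).card := by
    exact_mod_cast card_pos.2 (parts_nonempty P hA)
  have hN : (0 : ℝ) < A.card := by exact_mod_cast card_pos.2 hA
  have hPk : (0 : ℝ) < (pk k A).card := by exact_mod_cast card_pos.2 (pk_nonempty hA)
  have h1 := core A hA h0 P e m k hk hL1 (by rw [hlog]; linarith) hγ1 (by
    rw [hlog, div_le_iff₀ (by linarith)]
    have h2 : k * (4 + k) = γ * u := by
      rw [hu]
      field_simp
    rw [h2]
    nlinarith) (fun p hp hpP => by
      have h3 := hT p hp hpP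
      rw [one_div, ← div_eq_inv_mul, le_div_iff₀ hL0] at h3
      linarith)
  have e1 : (1 - γ) * k = (k : ℝ) - ε := by
    rw [hγ]
    field_simp
  rw [e1, ← Real.log_div hN.ne' (by positivity), ← Real.log_rpow (by positivity)] at h1
  have h2 := (Real.log_le_log_iff (by positivity) (by positivity)).1 h1
  have e2 : (A.card : ℝ) / (2 * (2 * m + 1) ^ m * (parts P A).card) =
      (A.card : ℝ) / (parts P A).card / F0 := by
    rw [hF0]
    field_simp
  rw [e2, Real.div_rpow (by positivity) hF00.le, div_le_iff₀ (by positivity)] at h2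
  rw [div_mul_eq_mul_div, one_mul, div_le_iff₀ (by positivity)]
  refine h2.trans (le_of_eq ?_)
  rw [hF1]
  ring

lemma parts_empty (A : Finset ℤ) : (parts ∅ A).card ≤ 1 := by
  refine card_le_one.2 ?_
  intro x hx y hy
  obtain ⟨a, -, rfl⟩ := mem_image.1 hx
  obtain ⟨b, -, rfl⟩ := mem_image.1 hy
  simp

/-- without an exceptional set -/
theorem spread_all (k : ℕ) (hk : 1 ≤ k) (ε : ℝ) (hε : 0 < ε) (hε1 : ε ≤ 1) :
    ∃ δ : ℝ, 0 < δ ∧ ∀ m : ℕ, ∃ c : ℝ, 0 < c ∧ ∀ A : Finset ℤ, A.Nonempty → (0 : ℤ) ∉ A →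
      ∀ e : ℕ → ℕ, (∀ p, p.Prime →
        ((A.filter fun a => m ≤ p ^ ((fa a p : ℤ) - e p).natAbs).card : ℝ) ≤ δ * A.card) →
      c * (A.card : ℝ) ^ ((k : ℝ) - ε) ≤ (pk k A).card := by
  obtain ⟨δ, hδ, h⟩ := spread k hk ε hε hε1
  refine ⟨δ, hδ, fun m => ?_⟩
  obtain ⟨c, hc, h⟩ := h m
  refine ⟨c, hc, fun A hA h0 e hT => ?_⟩
  have h1 := h A hA h0 ∅ e fun p hp _ => hT p hp
  have h2 : (parts ∅ A).card = 1 :=
    le_antisymm (parts_empty A) (card_pos.2 (parts_nonempty ∅ hA))
  rwa [h2, Nat.cast_one, div_one] at h1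

/-- the nonzero values of a polynomial on a set -/
noncomputable def vals (f : Polynomial ℤ) (X : Finset ℤ) : Finset ℤ :=
  (X.image fun x => f.eval x).erase 0

lemma card_vals (f : Polynomial ℤ) (hf : 0 < f.natDegree) (X : Finset ℤ) :
    X.card ≤ f.natDegree * ((vals f X).card + 1) := by
  have h1 := card_le_mul_card_image (f := fun x => f.eval x) X f.natDegree
    (fun v _ => fibre_le f hf X v)
  refine h1.trans (Nat.mul_le_mul_left _ ?_)
  unfold vals
  have := pred_card_le_card_erase (s := X.image fun x => f.eval x) (a := (0 : ℤ))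
  omega

/-- the values of a polynomial on clusters have no prime with spread valuations -/
lemma vals_spread (f : Polynomial ℤ) (hf : 0 < f.natDegree) (n w : ℕ) (hn : 2 * f.natDegree ≤ n)
    (X : Finset ℤ) (hX : X.Nonempty) (hcl : Clust n w X) {m : ℕ}
    (hm : (2 * w) ^ (f.natDegree * (f.natDegree + 1)) < m) :
    (vals f X).Nonempty ∧ (0 : ℤ) ∉ vals f X ∧ X.card ≤ 2 * f.natDegree * (vals f X).card ∧
    ∀ p, p.Prime → n * ((vals f X).filter fun a =>
      m ≤ p ^ ((fa a p : ℤ) - fa f.content p).natAbs).card ≤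
        2 * f.natDegree ^ 2 * (vals f X).card := by
  have h0 : (0 : ℤ) ∉ vals f X := notMem_erase _ _
  have hXl : n ≤ X.card := by
    obtain ⟨x, hx⟩ := hX
    exact (hcl x hx).trans (card_filter_le _ _)
  have hc := card_vals f hf X
  have hne : 0 < (vals f X).card := by
    by_contra hcon
    have : (vals f X).card = 0 := by omega
    rw [this] at hc
    omega
  have hc2 : X.card ≤ 2 * f.natDegree * (vals f X).card := by
    have : f.natDegree * ((vals f X).card + 1) ≤ f.natDegree * (2 * (vals f X).card) :=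
      Nat.mul_le_mul_left _ (by omega)
    calc X.card ≤ f.natDegree * ((vals f X).card + 1) := hc
      _ ≤ f.natDegree * (2 * (vals f X).card) := this
      _ = 2 * f.natDegree * (vals f X).card := by ring
  refine ⟨card_pos.1 hne, h0, hc2, fun p hp => ?_⟩
  set g := f.primPart with hg
  have hfg : f = Polynomial.C f.content * g := f.eq_C_content_mul_primPart
  have hf0 : f ≠ 0 := by
    rintro rfl
    simp at hf
  have hcont : f.content ≠ 0 := fun h => hf0 (Polynomial.content_eq_zero_iff.1 h)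
  have hgd : g.natDegree = f.natDegree := f.natDegree_primPart
  set j := Nat.clog p m with hj
  have hpj : m ≤ p ^ j := Nat.le_pow_clog hp.one_lt m
  set Q := X.filter fun x => ((p ^ j : ℕ) : ℤ) ∣ g.eval x with hQ
  have h1 : ((vals f X).filter fun a =>
      m ≤ p ^ ((fa a p : ℤ) - fa f.content p).natAbs).card ≤ Q.card := by
    have hsub : ((vals f X).filter fun a =>
      m ≤ p ^ ((fa a p : ℤ) - fa f.content p).natAbs) ⊆ Q.image fun x => f.eval x := by
      intro a ha
      rw [mem_filter] at ha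
      unfold vals at ha
      rw [mem_erase, mem_image] at ha
      obtain ⟨⟨ha0, x, hx, rfl⟩, ha2⟩ := ha
      refine mem_image_of_mem _ ?_
      rw [hQ, mem_filter]
      refine ⟨hx, ?_⟩
      have e1 : f.eval x = f.content * g.eval x := by
        conv_lhs => rw [hfg]
        rw [Polynomial.eval_mul, Polynomial.eval_C]
      have hg0 : g.eval x ≠ 0 := fun h => ha0 (by rw [e1, h, mul_zero])
      rw [e1, fa_mul hcont hg0] at ha2
      have e2 : ((fa f.content p + fa (g.eval x) p : ℕ) : ℤ) - fa f.content p =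
          (fa (g.eval x) p : ℤ) := by
        push_cast
        ring
      rw [e2, Int.natAbs_natCast] at ha2
      have h3 : j ≤ fa (g.eval x) p := Nat.clog_le_of_le_pow ha2
      exact (le_fa_iff hg0 hp j).1 h3
    exact (card_le_card hsub).trans card_image_le
  have h2 : n * Q.card ≤ f.natDegree * X.card := by
    refine count_clust X n w hcl Q (filter_subset _ _) f.natDegree fun y => ?_
    rw [← hgd]
    refine card_le_degree g f.isPrimitive_primPart _ (2 * w) (p ^ j) ?_ ?_ ?_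
    · intro x hx z hz
      rw [mem_filter, abs_le] at hx hz
      push_cast
      rw [abs_le]
      constructor <;> linarith [hx.2.1, hx.2.2, hz.2.1, hz.2.2]
    · intro x hx
      rw [mem_filter, hQ, mem_filter] at hx
      exact hx.1.2
    · rw [hgd]
      omega
  calc n * ((vals f X).filter fun a =>
      m ≤ p ^ ((fa a p : ℤ) - fa f.content p).natAbs).card ≤ n * Q.card :=
        Nat.mul_le_mul_left _ h1
    _ ≤ f.natDegree * X.card := h2
    _ ≤ f.natDegree * (2 * f.natDegree * (vals f X).card) := Nat.mul_le_mul_left _ hc2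
    _ = 2 * f.natDegree ^ 2 * (vals f X).card := by ring

/-- **Values of polynomials on clusters.** -/
theorem poly (k : ℕ) (hk : 1 ≤ k) (ε : ℝ) (hε : 0 < ε) (hε1 : ε ≤ 1) (d : ℕ) :
    ∃ n : ℕ, ∀ w : ℕ, ∃ c : ℝ, 0 < c ∧ ∀ f : Polynomial ℤ, 1 ≤ f.natDegree → f.natDegree ≤ d →
      ∀ X : Finset ℤ, X.Nonempty → Clust n w X →
      c * (X.card : ℝ) ^ ((k : ℝ) - ε) ≤ (pk k (vals f X)).card := by
  obtain ⟨δ, hδ, h⟩ := spread_all k hk ε hε hε1
  set n : ℕ := ⌈2 * (d : ℝ) ^ 2 / δ⌉₊ + 2 * d + 1 with hn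
  refine ⟨n, fun w => ?_⟩
  obtain ⟨c, hc, h⟩ := h ((2 * w + 1) ^ (d * (d + 1)) + 1)
  have hkr : (1 : ℝ) ≤ k := by exact_mod_cast hk
  refine ⟨c / (2 * d + 1 : ℝ) ^ ((k : ℝ) - ε), by positivity, ?_⟩
  intro f hf hfd X hX hcl
  obtain ⟨h1, h2, h3, h4⟩ := vals_spread f hf n w (by omega) X hX hcl
    (m := (2 * w + 1) ^ (d * (d + 1)) + 1) (by
      refine Nat.lt_succ_of_le ((Nat.pow_le_pow_left (Nat.le_succ _) _).trans
        (Nat.pow_le_pow_right (by omega) ?_))
      exact Nat.mul_le_mul hfd (by omega))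
  have h5 := h (vals f X) h1 h2 (fun p => fa f.content p) (fun p hp => by
    have h6 := h4 p hp
    have hlr : (0 : ℝ) < n := by
      have : 0 < n := by omega
      exact_mod_cast this
    have h7 : 2 * (d : ℝ) ^ 2 ≤ δ * n := by
      have h8 : 2 * (d : ℝ) ^ 2 / δ ≤ n := by
        refine (Nat.le_ceil _).trans ?_
        rw [hn]
        push_cast
        linarith [Nat.cast_nonneg (α := ℝ) d]
      rw [div_le_iff₀ hδ] at h8
      linarith
    have h8 : (n : ℝ) * (((vals f X).filter fun a =>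
        (2 * w + 1) ^ (d * (d + 1)) + 1 ≤ p ^ ((fa a p : ℤ) - fa f.content p).natAbs).card : ℝ) ≤
        2 * (f.natDegree : ℝ) ^ 2 * (vals f X).card := by exact_mod_cast h6
    have h9 : 2 * (f.natDegree : ℝ) ^ 2 * (vals f X).card ≤
        2 * (d : ℝ) ^ 2 * (vals f X).card := by
      have : (f.natDegree : ℝ) ≤ d := by exact_mod_cast hfd
      gcongr
    have h10 : 2 * (d : ℝ) ^ 2 * (vals f X).card ≤ δ * n * (vals f X).card :=
      mul_le_mul_of_nonneg_right h7 (by positivity)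
    have h11 := h8.trans (h9.trans h10)
    refine le_of_mul_le_mul_left ?_ hlr
    refine h11.trans (le_of_eq (by ring)))
  have h6 : (X.card : ℝ) ≤ (2 * d + 1 : ℝ) * (vals f X).card := by
    have : (X.card : ℝ) ≤ 2 * f.natDegree * (vals f X).card := by exact_mod_cast h3
    refine this.trans ?_
    have : (f.natDegree : ℝ) ≤ d := by exact_mod_cast hfd
    have : 2 * (f.natDegree : ℝ) ≤ 2 * d + 1 := by linarith
    exact mul_le_mul_of_nonneg_right this (by positivity)
  have h7 : (X.card : ℝ) ^ ((k : ℝ) - ε) ≤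
      (2 * d + 1 : ℝ) ^ ((k : ℝ) - ε) * ((vals f X).card : ℝ) ^ ((k : ℝ) - ε) := by
    rw [← Real.mul_rpow (by positivity) (by positivity)]
    exact Real.rpow_le_rpow (by positivity) h6 (by linarith)
  refine le_trans ?_ h5
  rw [div_mul_eq_mul_div, div_le_iff₀ (by positivity)]
  calc c * (X.card : ℝ) ^ ((k : ℝ) - ε) ≤
      c * ((2 * d + 1 : ℝ) ^ ((k : ℝ) - ε) * ((vals f X).card : ℝ) ^ ((k : ℝ) - ε)) :=
        mul_le_mul_of_nonneg_left h7 hc.le
    _ = c * ((vals f X).card : ℝ) ^ ((k : ℝ) - ε) * (2 * d + 1 : ℝ) ^ ((k : ℝ) - ε) := by ring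

/-- **Few products of values: few close pairs of arguments.** -/
theorem pairs (k : ℕ) (hk : 1 ≤ k) (ε : ℝ) (hε : 0 < ε) (hε1 : ε < 1) (d : ℕ) :
    ∃ n : ℕ, ∀ w : ℕ, ∃ C : ℝ, ∀ f : Polynomial ℤ, 1 ≤ f.natDegree → f.natDegree ≤ d →
      ∀ X : Finset ℤ, ((close w X).card : ℝ) ≤
        n * X.card + C * ((pk k (vals f X)).card : ℝ) ^ (1 / ((k : ℝ) - ε)) := by
  obtain ⟨n, h⟩ := poly k hk ε hε hε1.le d
  refine ⟨2 * n, fun w => ?_⟩
  obtain ⟨c, hc, h⟩ := h w
  have hkr : (1 : ℝ) ≤ k := by exact_mod_cast hk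
  have hke : 0 < (k : ℝ) - ε := by linarith
  refine ⟨(2 * w + 1) * (1 / c) ^ (1 / ((k : ℝ) - ε)), fun f hf hfd X => ?_⟩
  obtain ⟨B, hBX, hcl, hB⟩ := core_clust n w X
  have h1 : ((close w X).card : ℝ) ≤ (2 * n : ℕ) * X.card + (2 * w + 1) * B.card := by
    exact_mod_cast hB
  refine h1.trans (add_le_add_right ?_ _)
  rcases B.eq_empty_or_nonempty with h0 | hBn
  · rw [h0, card_empty, Nat.cast_zero, mul_zero]
    positivity
  · have h2 := h f hf hfd B hBn hcl
    have h3 : pk k (vals f B) ⊆ pk k (vals f X) :=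
      pk_mono (erase_subset_erase _ (image_subset_image hBX))
    have h4 : ((pk k (vals f B)).card : ℝ) ≤ (pk k (vals f X)).card := by
      exact_mod_cast card_le_card h3
    have h5 : (B.card : ℝ) ^ ((k : ℝ) - ε) ≤ 1 / c * (pk k (vals f X)).card := by
      rw [div_mul_eq_mul_div, one_mul, le_div_iff₀ hc]
      linarith
    have h6 := Real.rpow_le_rpow (by positivity) h5 (show 0 ≤ 1 / ((k : ℝ) - ε) by positivity)
    rw [← Real.rpow_mul (by positivity), mul_one_div_cancel hke.ne', Real.rpow_one,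
      Real.mul_rpow (by positivity) (by positivity)] at h6
    rw [mul_assoc]
    exact mul_le_mul_of_nonneg_left h6 (by positivity)

/-- the sumset -/
noncomputable def thick (S T : Finset ℤ) : Finset ℤ := (S ×ˢ T).image fun s => s.1 + s.2

lemma thick_clust (S T : Finset ℤ) (n w : ℕ) (hn : n ≤ T.card)
    (hT : ∀ x ∈ T, ∀ y ∈ T, |x - y| ≤ w) : Clust n w (thick S T) := by
  intro a ha
  obtain ⟨s, hs, rfl⟩ := mem_image.1 ha
  rw [mem_product] at hs
  have h1 : T.image (fun t => s.1 + t) ⊆ (thick S T).filter fun y => |y - (s.1 + s.2)| ≤ w := by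
    intro y hy
    obtain ⟨t, ht, rfl⟩ := mem_image.1 hy
    rw [mem_filter]
    refine ⟨mem_image.2 ⟨(s.1, t), mem_product.2 ⟨hs.1, ht⟩, rfl⟩, ?_⟩
    rw [add_sub_add_left_eq_sub]
    exact hT t ht s.2 hs.2
  have h2 : (T.image fun t => s.1 + t).card = T.card :=
    card_image_of_injective _ (add_right_injective _)
  exact hn.trans (h2 ▸ card_le_card h1)

/-- **Values of polynomials at shifts.** -/
theorem polyShifts (k : ℕ) (hk : 1 ≤ k) (ε : ℝ) (hε : 0 < ε) (hε1 : ε ≤ 1) (d : ℕ) :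
    ∃ n : ℕ, ∀ w : ℕ, ∃ c : ℝ, 0 < c ∧ ∀ f : Polynomial ℤ, 1 ≤ f.natDegree → f.natDegree ≤ d →
      ∀ T : Finset ℤ, n ≤ T.card → (∀ x ∈ T, ∀ y ∈ T, |x - y| ≤ w) →
      ∀ S : Finset ℤ, S.Nonempty → ∃ t : Fin k → ℤ, (∀ i, t i ∈ T) ∧
      c * (S.card : ℝ) ^ ((k : ℝ) - ε) ≤ (((Fintype.piFinset fun _ : Fin k => S).image
        fun s => ∏ i, f.eval (s i + t i)).card : ℝ) := by
  obtain ⟨n, h⟩ := poly k hk ε hε hε1 d
  refine ⟨n + 1, fun w => ?_⟩
  obtain ⟨c, hc, h⟩ := h w
  have hkr : (1 : ℝ) ≤ k := by exact_mod_cast hk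
  set W : ℝ := ((w : ℝ) + 1) ^ k with hW
  have hW0 : 0 < W := by positivity
  refine ⟨c / W, by positivity, fun f hf hfd T hTn hTw S hS => ?_⟩
  have hT0 : 0 < T.card := by omega
  obtain ⟨t0, ht0⟩ := card_pos.1 hT0
  set A : Finset ℤ := thick S T with hA
  have hSA : S.card ≤ A.card := by
    have h1 : S.image (fun s => s + t0) ⊆ A := by
      intro y hy
      obtain ⟨s, hs, rfl⟩ := mem_image.1 hy
      exact mem_image.2 ⟨(s, t0), mem_product.2 ⟨hs, ht0⟩, rfl⟩
    have h2 : (S.image fun s => s + t0).card = S.card :=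
      card_image_of_injective _ (add_left_injective _)
    exact h2 ▸ card_le_card h1
  have hAn : A.Nonempty := card_pos.1 ((card_pos.2 hS).trans_le hSA)
  have h1 := h f hf hfd A hAn (thick_clust S T n w (by omega) hTw)
  have h2 : (S.card : ℝ) ^ ((k : ℝ) - ε) ≤ (A.card : ℝ) ^ ((k : ℝ) - ε) :=
    Real.rpow_le_rpow (by positivity) (by exact_mod_cast hSA) (by linarith)
  have h3 : pk k (vals f A) ⊆ (Fintype.piFinset fun _ : Fin k => T).biUnion fun t =>
      (Fintype.piFinset fun _ : Fin k => S).image fun s => ∏ i, f.eval (s i + t i) := by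
    intro v hv
    obtain ⟨g, hg, rfl⟩ := mem_image.1 hv
    rw [Fintype.mem_piFinset] at hg
    have hg' : ∀ i, ∃ s : ℤ × ℤ, s ∈ S ×ˢ T ∧ f.eval (s.1 + s.2) = g i := by
      intro i
      obtain ⟨x, hx1, hx2⟩ := mem_image.1 (mem_of_mem_erase (hg i))
      obtain ⟨s, hs1, hs2⟩ := mem_image.1 hx1
      refine ⟨s, hs1, ?_⟩
      rw [hs2]
      exact hx2
    choose s hs1 hs2 using hg'
    rw [mem_biUnion]
    refine ⟨fun i => (s i).2, Fintype.mem_piFinset.2 fun i => (mem_product.1 (hs1 i)).2, ?_⟩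
    refine mem_image.2 ⟨fun i => (s i).1, Fintype.mem_piFinset.2 fun i =>
      (mem_product.1 (hs1 i)).1, ?_⟩
    exact prod_congr rfl fun i _ => hs2 i
  have h4 : ((pk k (vals f A)).card : ℝ) ≤ ∑ t ∈ Fintype.piFinset fun _ : Fin k => T,
      (((Fintype.piFinset fun _ : Fin k => S).image
        fun s => ∏ i, f.eval (s i + t i)).card : ℝ) := by
    exact_mod_cast (card_le_card h3).trans card_biUnion_le
  have hTW : (T.card : ℝ) ≤ w + 1 := by
    obtain ⟨a, ha, hmin⟩ := T.exists_min_image id ⟨t0, ht0⟩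
    have h5 : T ⊆ Icc a (a + w) := by
      intro y hy
      rw [mem_Icc]
      have h6 := hmin y hy
      have h7 := (abs_le.1 (hTw y hy a ha)).2
      simp only [id] at h6
      constructor <;> linarith
    have h6 := card_le_card h5
    rw [Int.card_Icc] at h6
    have h7 : a + (w : ℤ) + 1 - a = ((w + 1 : ℕ) : ℤ) := by
      push_cast
      ring
    rw [h7, Int.toNat_natCast] at h6
    exact_mod_cast h6
  by_contra hcon
  push Not at hcon
  have h5 : ∑ t ∈ Fintype.piFinset fun _ : Fin k => T,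
      (((Fintype.piFinset fun _ : Fin k => S).image
        fun s => ∏ i, f.eval (s i + t i)).card : ℝ) <
      ∑ t ∈ Fintype.piFinset fun _ : Fin k => T, c / W * (S.card : ℝ) ^ ((k : ℝ) - ε) := by
    refine sum_lt_sum_of_nonempty ?_ ?_
    · exact ⟨fun _ => t0, Fintype.mem_piFinset.2 fun _ => ht0⟩
    · intro t ht
      rw [Fintype.mem_piFinset] at ht
      exact hcon t ht
  rw [sum_const, nsmul_eq_mul, Fintype.card_piFinset, prod_const, card_univ,
    Fintype.card_fin] at h5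
  push_cast at h5
  have h8 : (T.card : ℝ) ^ k ≤ W := pow_le_pow_left₀ (by positivity) hTW k
  have h9 : (T.card : ℝ) ^ k * (c / W * (S.card : ℝ) ^ ((k : ℝ) - ε)) ≤
      W * (c / W * (S.card : ℝ) ^ ((k : ℝ) - ε)) :=
    mul_le_mul_of_nonneg_right h8 (by positivity)
  have h6 : W * (c / W * (S.card : ℝ) ^ ((k : ℝ) - ε)) = c * (S.card : ℝ) ^ ((k : ℝ) - ε) := by
    field_simp
  have h7 := mul_le_mul_of_nonneg_left h2 hc.le
  linarith

end Pool.Agent.R849.SV
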