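import Mathlib
import Pool.Agent.R849.SV.Main
import Pool.Agent.R849.RF.Main

/-!
# Arbitrary sets times sets without spread valuations, and times values of polynomials
-/

set_option autoImplicit false

namespace Pool.Agent.R849.SV

open Finset Pool.Agent.Y359.PE Pool.Agent.R849.RF
open scoped Classical

lemma exists_ne_zero {B : Finset ℤ} (hB : B.Nonempty) (h0 : (0 : ℤ) ∉ B) : ∃ b ∈ B, b ≠ 0 := by
  obtain ⟨b, hb⟩ := hB
  exact ⟨b, hb, fun h => h0 (h ▸ hb)⟩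

/-- from the iterated product set to the product with an arbitrary set -/
theorem arbM {ε c M : ℝ} (hε : 0 < ε) (hε1 : ε ≤ 1) (hc : 0 < c) (hM : 1 ≤ M) (k : ℕ)
    (hk : 1 / ε ≤ k) (B : Finset ℤ) (hB : ∃ b ∈ B, b ≠ 0)
    (h : c * M ^ ((k : ℝ) - ε) ≤ (pk k B).card)
    (A : Finset ℂ) (hA : A.Nonempty) (h0 : (0 : ℂ) ∉ A) :
    (c / 2) ^ (1 / (k : ℝ)) * ((A.card : ℝ) * M) ^ (1 - ε) ≤ (AB A B).card := by
  have hkr : (1 : ℝ) ≤ k := le_trans (by rw [le_div_iff₀ hε]; linarith) hk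
  have hk0 : (0 : ℝ) < k := by linarith
  have hA1 : (1 : ℝ) ≤ A.card := by exact_mod_cast card_pos.2 hA
  have hA0 : (0 : ℝ) < A.card := by linarith
  have hB0 : (0 : ℝ) < M := by linarith
  obtain ⟨x, hx⟩ : ∃ x : ℝ, x = (AB A B).card := ⟨_, rfl⟩
  have hx0 : 0 ≤ x := by rw [hx]; positivity
  have h1 := plun_zero A hA h0 B hB k
  rw [← hx] at h1 ⊢
  have h2 : c / 2 * M ^ ((k : ℝ) - ε) * (A.card : ℝ) ^ ((k : ℝ) - 1) ≤ x ^ k := by
    have h3 : c * M ^ ((k : ℝ) - ε) * (A.card : ℝ) ^ k ≤ 2 * (x ^ k * A.card) :=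
      (mul_le_mul_of_nonneg_right h (by positivity)).trans h1
    have h4 : (A.card : ℝ) ^ k = (A.card : ℝ) ^ ((k : ℝ) - 1) * A.card := by
      rw [Real.rpow_sub_one hA0.ne', Real.rpow_natCast]
      field_simp
    rw [h4] at h3
    have h5 : (c * M ^ ((k : ℝ) - ε) * (A.card : ℝ) ^ ((k : ℝ) - 1)) * A.card ≤
        (2 * x ^ k) * A.card := by linarith
    have h6 := le_of_mul_le_mul_right h5 hA0
    linarith
  have h7 : (c / 2 * M ^ ((k : ℝ) - ε) * (A.card : ℝ) ^ ((k : ℝ) - 1)) ^ (1 / (k : ℝ)) ≤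
      x := by
    have h8 := Real.rpow_le_rpow (by positivity) h2 (show 0 ≤ 1 / (k : ℝ) by positivity)
    refine h8.trans (le_of_eq ?_)
    rw [← Real.rpow_natCast, ← Real.rpow_mul hx0, mul_one_div_cancel hk0.ne', Real.rpow_one]
  refine le_trans ?_ h7
  have e0 : (c / 2 * M ^ ((k : ℝ) - ε) * (A.card : ℝ) ^ ((k : ℝ) - 1)) ^ (1 / (k : ℝ)) =
      (c / 2) ^ (1 / (k : ℝ)) * M ^ (((k : ℝ) - ε) * (1 / (k : ℝ))) *
        (A.card : ℝ) ^ (((k : ℝ) - 1) * (1 / (k : ℝ))) := by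
    rw [Real.mul_rpow (by positivity) (by positivity),
      Real.mul_rpow (by positivity) (by positivity), ← Real.rpow_mul hB0.le, ← Real.rpow_mul hA0.le]
  rw [e0, Real.mul_rpow hA0.le hB0.le]
  have e1 : M ^ (1 - ε) ≤ M ^ (((k : ℝ) - ε) * (1 / (k : ℝ))) := by
    refine Real.rpow_le_rpow_of_exponent_le hM ?_
    rw [mul_one_div, le_div_iff₀ hk0]
    nlinarith
  have e2 : (A.card : ℝ) ^ (1 - ε) ≤ (A.card : ℝ) ^ (((k : ℝ) - 1) * (1 / (k : ℝ))) := by
    refine Real.rpow_le_rpow_of_exponent_le hA1 ?_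
    rw [mul_one_div, le_div_iff₀ hk0]
    have : 1 ≤ ε * k := by
      rw [div_le_iff₀ hε] at hk
      linarith
    nlinarith
  have e3 : 0 ≤ (c / 2) ^ (1 / (k : ℝ)) := by positivity
  calc (c / 2) ^ (1 / (k : ℝ)) * ((A.card : ℝ) ^ (1 - ε) * M ^ (1 - ε))
      ≤ (c / 2) ^ (1 / (k : ℝ)) * ((A.card : ℝ) ^ (((k : ℝ) - 1) * (1 / (k : ℝ))) *
        M ^ (((k : ℝ) - ε) * (1 / (k : ℝ)))) := by gcongr
    _ = _ := by ring

/-- an arbitrary set times a set without spread valuations outside of `P` -/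
theorem spreadA (ε : ℝ) (hε : 0 < ε) (hε1 : ε ≤ 1) :
    ∃ δ : ℝ, 0 < δ ∧ ∀ m : ℕ, ∃ c : ℝ, 0 < c ∧ ∀ B : Finset ℤ, B.Nonempty → (0 : ℤ) ∉ B →
      ∀ (P : Finset ℕ) (e : ℕ → ℕ), (∀ p, p.Prime → p ∉ P →
        ((B.filter fun b => m ≤ p ^ ((fa b p : ℤ) - e p).natAbs).card : ℝ) ≤ δ * B.card) →
      ∀ A : Finset ℂ, A.Nonempty → (0 : ℂ) ∉ A →
      c * ((A.card : ℝ) * (B.card / (parts P B).card)) ^ (1 - ε) ≤ (AB A B).card := by
  obtain ⟨δ, hδ, h⟩ := spread ⌈1 / ε⌉₊ (ceil_ok hε) ε hε hε1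
  refine ⟨δ, hδ, fun m => ?_⟩
  obtain ⟨c, hc, h⟩ := h m
  refine ⟨(c / 2) ^ (1 / (⌈1 / ε⌉₊ : ℝ)), by positivity, fun B hB h0 P e hT A hA hA0 =>
    arbM hε hε1 hc ?_ _ (Nat.le_ceil _) B (exists_ne_zero hB h0) (h B hB h0 P e hT) A hA hA0⟩
  have h1 : (0 : ℝ) < (parts P B).card := by exact_mod_cast card_pos.2 (parts_nonempty P hB)
  rw [le_div_iff₀ h1, one_mul]
  exact_mod_cast card_image_le

lemma vals_card_le (f : Polynomial ℤ) (X : Finset ℤ) : (vals f X).card ≤ X.card :=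
  (card_le_card (erase_subset _ _)).trans card_image_le

/-- an arbitrary set times the values of a polynomial on a clustered set -/
theorem clustA (ε : ℝ) (hε : 0 < ε) (hε1 : ε ≤ 1) (d : ℕ) :
    ∃ n : ℕ, ∀ w : ℕ, ∃ c : ℝ, 0 < c ∧ ∀ f : Polynomial ℤ, 1 ≤ f.natDegree → f.natDegree ≤ d →
      ∀ X : Finset ℤ, X.Nonempty → Clust n w X → ∀ A : Finset ℂ, A.Nonempty → (0 : ℂ) ∉ A →
      c * ((A.card : ℝ) * X.card) ^ (1 - ε) ≤ (AB A (vals f X)).card := by
  obtain ⟨n, h⟩ := poly ⌈1 / ε⌉₊ (ceil_ok hε) ε hε hε1 d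
  refine ⟨n + 2 * d, fun w => ?_⟩
  obtain ⟨c, hc, h⟩ := h w
  set k := ⌈1 / ε⌉₊ with hk
  have hk1 : 1 ≤ k := ceil_ok hε
  have hkr : (1 : ℝ) ≤ k := by exact_mod_cast hk1
  refine ⟨(c / 2) ^ (1 / (k : ℝ)) / (2 * d + 1 : ℝ) ^ (1 - ε), by positivity, ?_⟩
  intro f hf hfd X hX hcl A hA hA0
  have hcl' : Clust n w X := fun x hx => le_trans (by omega) (hcl x hx)
  have h1 := h f hf hfd X hX hcl'
  have h0 : (0 : ℤ) ∉ vals f X := notMem_erase _ _
  have hXl : 2 * d ≤ X.card := by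
    obtain ⟨x, hx⟩ := hX
    have := (hcl x hx).trans (card_filter_le _ _)
    omega
  have hc2 := card_vals f hf X
  have hne : 0 < (vals f X).card := by
    by_contra hcon
    have h2 : (vals f X).card = 0 := by omega
    rw [h2] at hc2
    omega
  have hX2 : X.card ≤ 2 * d * (vals f X).card := by
    calc X.card ≤ f.natDegree * ((vals f X).card + 1) := hc2
      _ ≤ d * (2 * (vals f X).card) := Nat.mul_le_mul hfd (by omega)
      _ = 2 * d * (vals f X).card := by ring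
  have h2 : c * ((vals f X).card : ℝ) ^ ((k : ℝ) - ε) ≤ (pk k (vals f X)).card := by
    refine le_trans ?_ h1
    refine mul_le_mul_of_nonneg_left ?_ hc.le
    refine Real.rpow_le_rpow (by positivity) ?_ (by linarith)
    exact_mod_cast vals_card_le f X
  have h3 := arb hε hε1 hc k (Nat.le_ceil _) (vals f X) (exists_ne_zero (card_pos.1 hne) h0) h2
    A hA hA0
  refine le_trans ?_ h3
  rw [div_mul_eq_mul_div, div_le_iff₀ (by positivity), mul_assoc]
  refine mul_le_mul_of_nonneg_left ?_ (by positivity)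
  rw [← Real.mul_rpow (by positivity) (by positivity)]
  refine Real.rpow_le_rpow (by positivity) ?_ (by linarith)
  have h4 : (X.card : ℝ) ≤ 2 * d * (vals f X).card := by exact_mod_cast hX2
  have h5 : (A.card : ℝ) * X.card ≤ A.card * (2 * d * (vals f X).card) :=
    mul_le_mul_of_nonneg_left h4 (by positivity)
  have h6 : (0 : ℝ) ≤ A.card * (vals f X).card := by positivity
  nlinarith

/-- the number of the close pairs of arguments -/
theorem pairsA (ε : ℝ) (hε : 0 < ε) (hε1 : ε < 1) (d : ℕ) :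
    ∃ n : ℕ, ∀ w : ℕ, ∃ C : ℝ, ∀ f : Polynomial ℤ, 1 ≤ f.natDegree → f.natDegree ≤ d →
      ∀ (X : Finset ℤ) (A : Finset ℂ), A.Nonempty → (0 : ℂ) ∉ A →
      ((close w X).card : ℝ) ≤ n * X.card +
        C * ((AB A (vals f X)).card : ℝ) ^ (1 / (1 - ε)) / A.card := by
  obtain ⟨n, h⟩ := clustA ε hε hε1.le d
  refine ⟨2 * n, fun w => ?_⟩
  obtain ⟨c, hc, h⟩ := h w
  have hke : 0 < 1 - ε := by linarith
  refine ⟨(2 * w + 1) * (1 / c) ^ (1 / (1 - ε)), fun f hf hfd X A hA hA0 => ?_⟩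
  have hAr : (0 : ℝ) < A.card := by exact_mod_cast card_pos.2 hA
  obtain ⟨B, hBX, hcl, hB⟩ := core_clust n w X
  have h1 : ((close w X).card : ℝ) ≤ (2 * n : ℕ) * X.card + (2 * w + 1) * B.card := by
    exact_mod_cast hB
  refine h1.trans (add_le_add_right ?_ _)
  rcases B.eq_empty_or_nonempty with h0 | hBn
  · rw [h0, card_empty, Nat.cast_zero, mul_zero]
    positivity
  · have h2 := h f hf hfd B hBn hcl A hA hA0
    have h3 : AB A (vals f B) ⊆ AB A (vals f X) :=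
      image_subset_image (product_subset_product_right
        (erase_subset_erase _ (image_subset_image hBX)))
    have h4 : ((AB A (vals f B)).card : ℝ) ≤ (AB A (vals f X)).card := by
      exact_mod_cast card_le_card h3
    have h5 : ((A.card : ℝ) * B.card) ^ (1 - ε) ≤ 1 / c * (AB A (vals f X)).card := by
      rw [div_mul_eq_mul_div, one_mul, le_div_iff₀ hc]
      linarith
    have h6 := Real.rpow_le_rpow (by positivity) h5 (show 0 ≤ 1 / (1 - ε) by positivity)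
    rw [← Real.rpow_mul (by positivity), mul_one_div_cancel hke.ne', Real.rpow_one,
      Real.mul_rpow (by positivity) (by positivity)] at h6
    rw [le_div_iff₀ hAr, mul_assoc, mul_assoc]
    refine mul_le_mul_of_nonneg_left ?_ (by positivity)
    linarith

/-- **Bad shifts.** -/
theorem badShifts (ε : ℝ) (hε : 0 < ε) (hε1 : ε ≤ 1) (d : ℕ) :
    ∃ n : ℕ, ∀ w : ℕ, ∃ C : ℝ, ∀ f : Polynomial ℤ, 1 ≤ f.natDegree → f.natDegree ≤ d →
      ∀ (S : Finset ℤ) (A : Finset ℂ), S.Nonempty → A.Nonempty → (0 : ℂ) ∉ A →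
      C ≤ (A.card : ℝ) * S.card →
      ∀ T : Finset ℤ, n ≤ T.card → (∀ x ∈ T, ∀ y ∈ T, |x - y| ≤ w) →
      ∃ t ∈ T, ((A.card : ℝ) * S.card) ^ (1 - ε) ≤
        (((A ×ˢ S).image fun s => s.1 * ((f.eval (s.2 + t) : ℤ) : ℂ)).card : ℝ) := by
  obtain ⟨n, h⟩ := clustA (ε / 2) (by positivity) (by linarith) d
  refine ⟨n + 1, fun w => ?_⟩
  obtain ⟨c, hc, h⟩ := h w
  refine ⟨(((w : ℝ) + 1) / c) ^ (2 / ε), fun f hf hfd S A hS hA hA0 hC T hTn hTw => ?_⟩
  have hT0 : 0 < T.card := by omega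
  obtain ⟨t0, ht0⟩ := card_pos.1 hT0
  set X : Finset ℤ := thick S T with hX
  have hSX : S.card ≤ X.card := by
    have h1 : S.image (fun s => s + t0) ⊆ X := by
      intro y hy
      obtain ⟨s, hs, rfl⟩ := mem_image.1 hy
      exact mem_image.2 ⟨(s, t0), mem_product.2 ⟨hs, ht0⟩, rfl⟩
    have h2 : (S.image fun s => s + t0).card = S.card :=
      card_image_of_injective _ (add_left_injective _)
    exact h2 ▸ card_le_card h1
  have hXn : X.Nonempty := card_pos.1 ((card_pos.2 hS).trans_le hSX)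
  have h1 := h f hf hfd X hXn (thick_clust S T n w (by omega) hTw) A hA hA0
  have hA1 : (0 : ℝ) < A.card := by exact_mod_cast card_pos.2 hA
  have hS1 : (0 : ℝ) < S.card := by exact_mod_cast card_pos.2 hS
  set y : ℝ := (A.card : ℝ) * S.card with hy
  have hy0 : 0 < y := by positivity
  have h2 : y ^ (1 - ε / 2) ≤ ((A.card : ℝ) * X.card) ^ (1 - ε / 2) := by
    refine Real.rpow_le_rpow hy0.le ?_ (by linarith)
    have : (S.card : ℝ) ≤ X.card := by exact_mod_cast hSX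
    rw [hy]
    gcongr
  have h3 : AB A (vals f X) ⊆ T.biUnion fun t =>
      (A ×ˢ S).image fun s => s.1 * ((f.eval (s.2 + t) : ℤ) : ℂ) := by
    intro z hz
    obtain ⟨s, hs, rfl⟩ := mem_image.1 hz
    rw [mem_product] at hs
    obtain ⟨x, hx1, hx2⟩ := mem_image.1 (mem_of_mem_erase hs.2)
    obtain ⟨r, hr, hr2⟩ := mem_image.1 hx1
    rw [mem_product] at hr
    rw [mem_biUnion]
    refine ⟨r.2, hr.2, mem_image.2 ⟨(s.1, r.1), mem_product.2 ⟨hs.1, hr.1⟩, ?_⟩⟩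
    show s.1 * ((f.eval (r.1 + r.2) : ℤ) : ℂ) = s.1 * (s.2 : ℂ)
    rw [hr2]
    congr 2
  have h4 : ((AB A (vals f X)).card : ℝ) ≤ ∑ t ∈ T,
      (((A ×ˢ S).image fun s => s.1 * ((f.eval (s.2 + t) : ℤ) : ℂ)).card : ℝ) := by
    exact_mod_cast (card_le_card h3).trans card_biUnion_le
  have hTW : (T.card : ℝ) ≤ w + 1 := by
    obtain ⟨a, ha, hmin⟩ := T.exists_min_image id ⟨t0, ht0⟩
    have h5 : T ⊆ Icc a (a + w) := by
      intro y hy
      rw [mem_Icc]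
      have h6 := hmin y hy
      have h7 := (abs_le.1 (hTw y hy a ha)).2
      simp only [id] at h6
      constructor <;> linarith
    have h6 := card_le_card h5
    rw [Int.card_Icc] at h6
    have h7 : a + (w : ℤ) + 1 - a = ((w + 1 : ℕ) : ℤ) := by
      push_cast
      ring
    rw [h7, Int.toNat_natCast] at h6
    exact_mod_cast h6
  by_contra hcon
  push Not at hcon
  have h5 : ∑ t ∈ T, (((A ×ˢ S).image fun s => s.1 * ((f.eval (s.2 + t) : ℤ) : ℂ)).card : ℝ) <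
      ∑ t ∈ T, y ^ (1 - ε) := sum_lt_sum_of_nonempty ⟨t0, ht0⟩ hcon
  rw [sum_const, nsmul_eq_mul] at h5
  have h6 : ((w : ℝ) + 1) / c ≤ y ^ (ε / 2) := by
    have h7 := Real.rpow_le_rpow (by positivity) hC (show 0 ≤ ε / 2 by positivity)
    rw [← Real.rpow_mul (by positivity)] at h7
    have h8 : 2 / ε * (ε / 2) = 1 := by field_simp
    rwa [h8, Real.rpow_one] at h7
  have h7 : y ^ (1 - ε / 2) = y ^ (1 - ε) * y ^ (ε / 2) := by
    rw [← Real.rpow_add hy0]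
    congr 1
    ring
  have hyp : 0 < y ^ (1 - ε) := by positivity
  have h8 : ((w : ℝ) + 1) * y ^ (1 - ε) ≤ c * y ^ (1 - ε / 2) := by
    rw [div_le_iff₀ hc] at h6
    rw [h7]
    nlinarith
  have h9 : (T.card : ℝ) * y ^ (1 - ε) ≤ (w + 1) * y ^ (1 - ε) :=
    mul_le_mul_of_nonneg_right hTW hyp.le
  have h10 := mul_le_mul_of_nonneg_left h2 hc.le
  linarith

end Pool.Agent.R849.SV
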